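import Mathlib

open MeasureTheory Filter Set
open scoped ENNReal

namespace Pool.Agent.Results.MP_bc03d6_nt.Khintchine

section Resample

variable {X : Type*} [MeasurableSpace X] (μ : Measure X) [IsProbabilityMeasure μ]

/-- Resampling the `M`-th coordinate preserves the infinite product measure. -/
lemma map_update (M : ℕ) :
    ((Measure.infinitePi (fun _ : ℕ => μ)).prod μ).map
      (fun p : (ℕ → X) × X => Function.update p.1 M p.2) =
      Measure.infinitePi (fun _ : ℕ => μ) := by
  classical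
  refine Measure.eq_infinitePi _ ?_
  intro s t ht
  have hmeas : Measurable (fun p : (ℕ → X) × X => Function.update p.1 M p.2) := by
    rw [measurable_pi_iff]
    intro i
    by_cases h : i = M
    · subst h
      simpa using measurable_snd
    · have : (fun p : (ℕ → X) × X => Function.update p.1 M p.2 i) =
          (fun f : ℕ → X => f i) ∘ Prod.fst := by
        ext p
        simp [Function.update_of_ne h]
      rw [this]
      exact (measurable_pi_apply i).comp measurable_fst
  rw [Measure.map_apply hmeas (MeasurableSet.pi (Finset.countable_toSet s) fun i _ => ht i)]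
  by_cases hM : M ∈ s
  · have : (fun p : (ℕ → X) × X => Function.update p.1 M p.2) ⁻¹' (Set.pi s t) =
        (Set.pi (s.erase M : Finset ℕ) t) ×ˢ (t M) := by
      ext p
      simp only [Set.mem_preimage, Set.mem_pi, Finset.mem_coe, Set.mem_prod, Finset.mem_erase]
      constructor
      · intro h
        refine ⟨fun i hi => ?_, ?_⟩
        · have := h i hi.2
          rwa [Function.update_of_ne hi.1] at this
        · have := h M hM
          rwa [Function.update_self] at this
      · rintro ⟨h1, h2⟩ i hi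
        by_cases h : i = M
        · subst h; rwa [Function.update_self]
        · rw [Function.update_of_ne h]; exact h1 i ⟨h, hi⟩
    rw [this, Measure.prod_prod, Measure.infinitePi_pi _ (fun i _ => ht i)]
    rw [← Finset.prod_erase_mul s _ hM]
  · have : (fun p : (ℕ → X) × X => Function.update p.1 M p.2) ⁻¹' (Set.pi s t) =
        (Set.pi s t) ×ˢ (Set.univ) := by
      ext p
      simp only [Set.mem_preimage, Set.mem_pi, Finset.mem_coe, Set.mem_prod, Set.mem_univ,
        and_true]
      refine forall₂_congr fun i hi => ?_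
      have h : i ≠ M := fun h => hM (h ▸ hi)
      rw [Function.update_of_ne h]
    rw [this, Measure.prod_prod, Measure.infinitePi_pi _ (fun i _ => ht i)]
    simp

lemma measurable_update_pair (M : ℕ) :
    Measurable (fun p : (ℕ → X) × X => Function.update p.1 M p.2) := by
  rw [measurable_pi_iff]
  intro i
  by_cases h : i = M
  · subst h
    simpa using measurable_snd
  · have : (fun p : (ℕ → X) × X => Function.update p.1 M p.2 i) =
        (fun f : ℕ → X => f i) ∘ Prod.fst := by
      ext p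
      simp [Function.update_of_ne h]
    rw [this]
    exact (measurable_pi_apply i).comp measurable_fst

lemma lintegral_resample (M : ℕ) {f : (ℕ → X) → ℝ≥0∞} (hf : Measurable f) :
    ∫⁻ ω, f ω ∂(Measure.infinitePi (fun _ : ℕ => μ)) =
      ∫⁻ ω, ∫⁻ x, f (Function.update ω M x) ∂μ ∂(Measure.infinitePi (fun _ : ℕ => μ)) := by
  conv_lhs => rw [← map_update μ M]
  rw [lintegral_map hf (measurable_update_pair M)]
  exact lintegral_prod _ ((hf.comp (measurable_update_pair M)).aemeasurable)

end Resample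

section OneStep

variable {X : Type*} [MeasurableSpace X] (μ : Measure X) [IsProbabilityMeasure μ]

/-- One step estimate. `H y` is the set hit by a point `y`. -/
lemma one_step (H : X → Set X) (hH : MeasurableSet {p : X × X | p.2 ∈ H p.1})
    (hsymm : ∀ x y, x ∈ H y ↔ y ∈ H x) (a : ℝ) (ha : 0 < a)
    (hμ : ∀ᵐ y ∂μ, μ.real (H y) = a) (A : Set X) (hA : MeasurableSet A) :
    ∫⁻ x, ENNReal.ofReal (Real.exp (-(μ.real (A ∩ H x)) / a)) ∂μ ≤
      ENNReal.ofReal (1 - μ.real A / 2) := by
  have hmA : MeasurableSet {p : X × X | p.2 ∈ A ∩ H p.1} := by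
    have : {p : X × X | p.2 ∈ A ∩ H p.1} = (Prod.snd ⁻¹' A) ∩ {p : X × X | p.2 ∈ H p.1} := by
      ext p; simp
    rw [this]
    exact (measurable_snd hA).inter hH
  have hmeas : Measurable (fun x => μ (A ∩ H x)) := by
    have := measurable_measure_prodMk_left (ν := μ) hmA
    exact this
  have hmeasr : Measurable (fun x => μ.real (A ∩ H x)) := hmeas.ennreal_toReal
  have hbd : ∀ x, μ.real (A ∩ H x) ≤ 1 := fun x => measureReal_le_one
  have hint : Integrable (fun x => μ.real (A ∩ H x)) μ := by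
    refine Integrable.of_bound hmeasr.aestronglyMeasurable 1 (ae_of_all _ fun x => ?_)
    rw [Real.norm_eq_abs, abs_of_nonneg measureReal_nonneg]
    exact hbd x
  -- Fubini
  have hfub : ∫ x, μ.real (A ∩ H x) ∂μ = a * μ.real A := by
    rw [integral_eq_lintegral_of_nonneg_ae (ae_of_all _ fun x => measureReal_nonneg)
      hmeasr.aestronglyMeasurable]
    have h1 : ∫⁻ x, ENNReal.ofReal (μ.real (A ∩ H x)) ∂μ = ∫⁻ x, μ (A ∩ H x) ∂μ := by
      refine lintegral_congr fun x => ?_
      rw [measureReal_def, ENNReal.ofReal_toReal (measure_ne_top _ _)]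
    rw [h1]
    have h2 : ∫⁻ x, μ (A ∩ H x) ∂μ = (μ.prod μ) {p : X × X | p.2 ∈ A ∩ H p.1} := by
      rw [Measure.prod_apply hmA]; rfl
    have h3 : (μ.prod μ) {p : X × X | p.2 ∈ A ∩ H p.1} =
        ∫⁻ y, μ {x | y ∈ A ∩ H x} ∂μ := by
      rw [Measure.prod_apply_symm hmA]; rfl
    have h4 : ∫⁻ y, μ {x | y ∈ A ∩ H x} ∂μ = ∫⁻ y, A.indicator (fun _ => ENNReal.ofReal a) y ∂μ := by
      refine lintegral_congr_ae ?_
      filter_upwards [hμ] with y hy
      by_cases hyA : y ∈ A
      · rw [Set.indicator_of_mem hyA]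
        have : {x | y ∈ A ∩ H x} = H y := by
          ext x
          simp only [Set.mem_inter_iff, hyA, true_and, Set.mem_ofPred_eq]
          exact hsymm y x
        rw [this, ← hy, measureReal_def, ENNReal.ofReal_toReal (measure_ne_top _ _)]
      · rw [Set.indicator_of_notMem hyA]
        have : {x | y ∈ A ∩ H x} = ∅ := by
          ext x
          simp [hyA]
        rw [this, measure_empty]
    rw [h2, h3, h4, lintegral_indicator_const hA, ENNReal.toReal_mul,
      ENNReal.toReal_ofReal ha.le, measureReal_def]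
  have hza : ∀ᵐ x ∂μ, μ.real (A ∩ H x) / a ≤ 1 := by
    filter_upwards [hμ] with x hx
    rw [div_le_one ha, ← hx]
    exact measureReal_mono Set.inter_subset_right
  have hexp : ∀ z : ℝ, 0 ≤ z → z ≤ 1 → Real.exp (-z) ≤ 1 - z / 2 := by
    intro z hz0 hz1
    have h := Real.quadratic_le_exp_of_nonneg hz0
    rw [Real.exp_neg, inv_le_comm₀ (Real.exp_pos z) (by linarith)]
    refine le_trans ?_ h
    rw [inv_le_iff_one_le_mul₀ (by linarith)]
    nlinarith [mul_nonneg hz0 (sub_nonneg.mpr hz1), mul_nonneg (mul_nonneg hz0 hz0) (sub_nonneg.mpr hz1)]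
  have hint2 : Integrable (fun x => 1 - (μ.real (A ∩ H x) / a) / 2) μ :=
    (integrable_const _).sub ((hint.div_const a).div_const 2)
  calc ∫⁻ x, ENNReal.ofReal (Real.exp (-(μ.real (A ∩ H x)) / a)) ∂μ
      ≤ ∫⁻ x, ENNReal.ofReal (1 - (μ.real (A ∩ H x) / a) / 2) ∂μ := by
        refine lintegral_mono_ae ?_
        filter_upwards [hza] with x hx
        refine ENNReal.ofReal_le_ofReal ?_
        rw [neg_div]
        exact hexp _ (by positivity) hx
    _ = ENNReal.ofReal (∫ x, (1 - (μ.real (A ∩ H x) / a) / 2) ∂μ) := by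
        rw [ofReal_integral_eq_lintegral_ofReal hint2]
        filter_upwards [hza] with x hx
        have : 0 ≤ μ.real (A ∩ H x) / a := by positivity
        simp only [Pi.zero_apply]
        linarith
    _ = ENNReal.ofReal (1 - μ.real A / 2) := by
        congr 1
        rw [integral_sub (integrable_const _) ((hint.div_const a).div_const 2)]
        rw [integral_div, integral_div, hfub]
        simp only [integral_const, probReal_univ, smul_eq_mul, mul_one]
        field_simp

end OneStep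

section Super

variable {X : Type*} [MeasurableSpace X] (μ : Measure X) [IsProbabilityMeasure μ]

/-- The set of points not hit by the first `M` points of the sequence, where the point with
index `j` located at `y` hits the set `H j y`. -/
def unc (H : ℕ → X → Set X) (M : ℕ) (ω : ℕ → X) : Set X := {x | ∀ j < M, x ∉ H j (ω j)}

omit [MeasurableSpace X] in
lemma unc_succ_update (H : ℕ → X → Set X) (M : ℕ) (ω : ℕ → X) (x : X) :
    unc H (M + 1) (Function.update ω M x) = unc H M ω \ H M x := by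
  ext z
  simp only [unc, Set.mem_ofPred_eq, Set.mem_sdiff]
  constructor
  · intro h
    refine ⟨fun j hj => ?_, ?_⟩
    · have := h j (Nat.lt_succ_of_lt hj)
      rwa [Function.update_of_ne hj.ne] at this
    · have := h M (Nat.lt_succ_self M)
      rwa [Function.update_self] at this
  · rintro ⟨h1, h2⟩ j hj
    rcases Nat.lt_succ_iff_lt_or_eq.mp hj with h | h
    · rw [Function.update_of_ne h.ne]; exact h1 j h
    · subst h; rwa [Function.update_self]

omit [MeasurableSpace X] in
lemma unc_update_of_le (H : ℕ → X → Set X) {M' M : ℕ} (h : M' ≤ M) (ω : ℕ → X) (x : X) :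
    unc H M' (Function.update ω M x) = unc H M' ω := by
  ext z
  simp only [unc, Set.mem_ofPred_eq]
  refine forall₂_congr fun j hj => ?_
  rw [Function.update_of_ne (hj.trans_le h).ne]

omit [MeasurableSpace X] in
lemma unc_anti (H : ℕ → X → Set X) {M M' : ℕ} (h : M ≤ M') (ω : ℕ → X) :
    unc H M' ω ⊆ unc H M ω := fun _ hz j hj => hz j (hj.trans_le h)

lemma measurableSet_unc_pair {H : ℕ → X → Set X}
    (hH : ∀ j, MeasurableSet {p : X × X | p.2 ∈ H j p.1}) (M : ℕ) :
    MeasurableSet {p : (ℕ → X) × X | p.2 ∈ unc H M p.1} := by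
  have : {p : (ℕ → X) × X | p.2 ∈ unc H M p.1} =
      ⋂ j ∈ Finset.range M, (fun p : (ℕ → X) × X => (p.1 j, p.2)) ⁻¹'
        {p : X × X | p.2 ∈ H j p.1}ᶜ := by
    ext p
    simp [unc]
  rw [this]
  refine Finset.measurableSet_biInter _ fun j _ => ?_
  exact (((measurable_pi_apply j).comp measurable_fst).prodMk measurable_snd) (hH j).compl

lemma measurableSet_unc {H : ℕ → X → Set X}
    (hH : ∀ j, MeasurableSet {p : X × X | p.2 ∈ H j p.1}) (M : ℕ) (ω : ℕ → X) :
    MeasurableSet (unc H M ω) :=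
  measurable_prodMk_left (measurableSet_unc_pair hH M)

lemma measurable_u {H : ℕ → X → Set X}
    (hH : ∀ j, MeasurableSet {p : X × X | p.2 ∈ H j p.1}) (M : ℕ) :
    Measurable (fun ω : ℕ → X => μ.real (unc H M ω)) := by
  have := measurable_measure_prodMk_left (ν := μ) (measurableSet_unc_pair hH M)
  exact this.ennreal_toReal

/-- The exponential supermartingale estimate. -/
lemma super {H : ℕ → X → Set X}
    (hH : ∀ j, MeasurableSet {p : X × X | p.2 ∈ H j p.1}) (M₀ N : ℕ) (a : ℝ) (ha : 0 < a)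
    (hsymm : ∀ j, M₀ ≤ j → j < M₀ + N → ∀ x y, x ∈ H j y ↔ y ∈ H j x)
    (hμ : ∀ j, M₀ ≤ j → j < M₀ + N → ∀ᵐ y ∂μ, μ.real (H j y) = a)
    (r : ℝ) (hr1 : r ≤ 2) :
    ∫⁻ ω, (if r ≤ μ.real (unc H (M₀ + N) ω) then
        ENNReal.ofReal (Real.exp ((μ.real (unc H (M₀ + N) ω) - μ.real (unc H M₀ ω)) / a)) else 0)
        ∂(Measure.infinitePi (fun _ : ℕ => μ)) ≤ ENNReal.ofReal ((1 - r / 2) ^ N) := by
  induction N with
  | zero =>
    simp only [add_zero, sub_self, zero_div, Real.exp_zero, ENNReal.ofReal_one, pow_zero]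
    calc _ ≤ ∫⁻ _ω, (1 : ℝ≥0∞) ∂(Measure.infinitePi (fun _ : ℕ => μ)) := by
          refine lintegral_mono fun ω => ?_
          split_ifs <;> simp
      _ = 1 := by simp
  | succ N ih =>
    have ih' := ih (fun j h1 h2 => hsymm j h1 (by omega)) (fun j h1 h2 => hμ j h1 (by omega))
    have hmeasW : ∀ N, Measurable (fun ω : ℕ → X => (if r ≤ μ.real (unc H (M₀ + N) ω) then
        ENNReal.ofReal (Real.exp ((μ.real (unc H (M₀ + N) ω) - μ.real (unc H M₀ ω)) / a)) else 0)) := by
      intro N
      refine Measurable.ite ?_ ?_ measurable_const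
      · exact measurableSet_le measurable_const (measurable_u μ hH _)
      · exact (Real.measurable_exp.comp
          (((measurable_u μ hH _).sub (measurable_u μ hH _)).div_const a)).ennreal_ofReal
    rw [lintegral_resample μ (M₀ + N) (hmeasW (N + 1))]
    calc _ ≤ ∫⁻ ω, (if r ≤ μ.real (unc H (M₀ + N) ω) then
        ENNReal.ofReal (Real.exp ((μ.real (unc H (M₀ + N) ω) - μ.real (unc H M₀ ω)) / a)) else 0)
          * ENNReal.ofReal (1 - r / 2) ∂(Measure.infinitePi (fun _ : ℕ => μ)) := by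
          refine lintegral_mono fun ω => ?_
          rw [← add_assoc]
          have hA : MeasurableSet (unc H (M₀ + N) ω) := measurableSet_unc hH _ _
          have key : ∀ x, (if r ≤ μ.real (unc H (M₀ + N + 1) (Function.update ω (M₀ + N) x)) then
              ENNReal.ofReal (Real.exp ((μ.real (unc H (M₀ + N + 1)
                (Function.update ω (M₀ + N) x)) -
                μ.real (unc H M₀ (Function.update ω (M₀ + N) x))) / a)) else 0) ≤
              (if r ≤ μ.real (unc H (M₀ + N) ω) then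
                ENNReal.ofReal (Real.exp ((μ.real (unc H (M₀ + N) ω) -
                  μ.real (unc H M₀ ω)) / a)) else 0) *
              ENNReal.ofReal (Real.exp (-(μ.real (unc H (M₀ + N) ω ∩ H (M₀ + N) x)) / a)) := by
            intro x
            rw [unc_succ_update, unc_update_of_le H (Nat.le_add_right M₀ N)]
            have hHx : MeasurableSet (H (M₀ + N) x) := by
              exact measurable_prodMk_left (hH (M₀ + N))
            have hdiff : μ.real (unc H (M₀ + N) ω \ H (M₀ + N) x) =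
                μ.real (unc H (M₀ + N) ω) - μ.real (unc H (M₀ + N) ω ∩ H (M₀ + N) x) := by
              have := measureReal_sdiff_add_inter (μ := μ) (s := unc H (M₀ + N) ω) hHx
              linarith
            by_cases h1 : r ≤ μ.real (unc H (M₀ + N) ω \ H (M₀ + N) x)
            · have h2 : r ≤ μ.real (unc H (M₀ + N) ω) :=
                h1.trans (measureReal_mono Set.sdiff_subset)
              rw [if_pos h1, if_pos h2, ← ENNReal.ofReal_mul (Real.exp_pos _).le, ← Real.exp_add,
                hdiff]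
              refine ENNReal.ofReal_le_ofReal (Real.exp_le_exp.mpr (le_of_eq ?_))
              ring
            · rw [if_neg h1]
              exact zero_le
          calc _ ≤ ∫⁻ x, (if r ≤ μ.real (unc H (M₀ + N) ω) then
                ENNReal.ofReal (Real.exp ((μ.real (unc H (M₀ + N) ω) -
                  μ.real (unc H M₀ ω)) / a)) else 0) *
              ENNReal.ofReal (Real.exp (-(μ.real (unc H (M₀ + N) ω ∩ H (M₀ + N) x)) / a)) ∂μ :=
                lintegral_mono key
            _ = (if r ≤ μ.real (unc H (M₀ + N) ω) then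
                ENNReal.ofReal (Real.exp ((μ.real (unc H (M₀ + N) ω) -
                  μ.real (unc H M₀ ω)) / a)) else 0) *
                ∫⁻ x, ENNReal.ofReal (Real.exp (-(μ.real (unc H (M₀ + N) ω ∩ H (M₀ + N) x)) / a)) ∂μ := by
                rw [lintegral_const_mul']
                split_ifs <;> simp
            _ ≤ _ := by
                by_cases h2 : r ≤ μ.real (unc H (M₀ + N) ω)
                · rw [if_pos h2]
                  refine mul_le_mul_right ?_ _
                  refine (one_step μ (H (M₀ + N)) (hH _) (hsymm _ (by omega) (by omega)) a ha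
                    (hμ _ (by omega) (by omega)) _ hA).trans ?_
                  exact ENNReal.ofReal_le_ofReal (by linarith)
                · rw [if_neg h2, zero_mul, zero_mul]
      _ = (∫⁻ ω, (if r ≤ μ.real (unc H (M₀ + N) ω) then
        ENNReal.ofReal (Real.exp ((μ.real (unc H (M₀ + N) ω) - μ.real (unc H M₀ ω)) / a)) else 0)
          ∂(Measure.infinitePi (fun _ : ℕ => μ))) * ENNReal.ofReal (1 - r / 2) := by
          rw [lintegral_mul_const _ (hmeasW N)]
      _ ≤ ENNReal.ofReal ((1 - r / 2) ^ N) * ENNReal.ofReal (1 - r / 2) := by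
          exact mul_le_mul_left ih' _
      _ = _ := by
          rw [← ENNReal.ofReal_mul (pow_nonneg (by linarith) N), pow_succ]

/-- The probability that a block of points hits too little of the uncovered set. -/
lemma block {H : ℕ → X → Set X}
    (hH : ∀ j, MeasurableSet {p : X × X | p.2 ∈ H j p.1}) (M₀ N : ℕ) (a : ℝ) (ha : 0 < a)
    (hsymm : ∀ j, M₀ ≤ j → j < M₀ + N → ∀ x y, x ∈ H j y ↔ y ∈ H j x)
    (hμ : ∀ j, M₀ ≤ j → j < M₀ + N → ∀ᵐ y ∂μ, μ.real (H j y) = a)
    (δ : ℝ) (hδ0 : 0 < δ) (hδ1 : δ ≤ 1) :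
    (Measure.infinitePi (fun _ : ℕ => μ)) {ω | δ ≤ μ.real (unc H M₀ ω) ∧
      μ.real (unc H M₀ ω) - μ.real (unc H (M₀ + N) ω) ≤ min (N * a) 1 * δ / 8} ≤
      ENNReal.ofReal (Real.exp (-(5 / 16) * δ * N)) := by
  set P := Measure.infinitePi (fun _ : ℕ => μ) with hP
  set F := {ω : ℕ → X | δ ≤ μ.real (unc H M₀ ω) ∧
      μ.real (unc H M₀ ω) - μ.real (unc H (M₀ + N) ω) ≤ min (N * a) 1 * δ / 8} with hF
  have hFm : MeasurableSet F := by
    refine MeasurableSet.inter ?_ ?_
    · exact measurableSet_le measurable_const (measurable_u μ hH _)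
    · exact measurableSet_le ((measurable_u μ hH _).sub (measurable_u μ hH _)) measurable_const
  have hsup := super μ hH M₀ N a ha hsymm hμ (7 * δ / 8) (by linarith)
  rw [← hP] at hsup
  have hlow : ENNReal.ofReal (Real.exp (-(N * δ / 8))) * P F ≤
      ∫⁻ ω, (if 7 * δ / 8 ≤ μ.real (unc H (M₀ + N) ω) then
        ENNReal.ofReal (Real.exp ((μ.real (unc H (M₀ + N) ω) - μ.real (unc H M₀ ω)) / a)) else 0)
        ∂P := by
    rw [← lintegral_indicator_const hFm]
    refine lintegral_mono fun ω => ?_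
    by_cases hω : ω ∈ F
    · rw [Set.indicator_of_mem hω]
      obtain ⟨h1, h2⟩ := hω
      have hmin1 : min (N * a) 1 ≤ 1 := min_le_right _ _
      have hmin2 : min (N * a) 1 ≤ N * a := min_le_left _ _
      have h3 : 7 * δ / 8 ≤ μ.real (unc H (M₀ + N) ω) := by nlinarith
      rw [if_pos h3]
      refine ENNReal.ofReal_le_ofReal (Real.exp_le_exp.mpr ?_)
      rw [le_div_iff₀ ha]
      nlinarith
    · rw [Set.indicator_of_notMem hω]
      exact zero_le
  have hpow : (1 - 7 * δ / 8 / 2) ^ N ≤ Real.exp (-(7 * δ / 16) * N) := by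
    have h1 : 1 - 7 * δ / 8 / 2 ≤ Real.exp (-(7 * δ / 16)) := by
      have := Real.add_one_le_exp (-(7 * δ / 16))
      linarith
    calc (1 - 7 * δ / 8 / 2) ^ N ≤ (Real.exp (-(7 * δ / 16))) ^ N :=
          pow_le_pow_left₀ (by linarith) h1 N
      _ = _ := by rw [← Real.exp_nat_mul]; ring_nf
  have h1 : ENNReal.ofReal (Real.exp (-(N * δ / 8))) * P F ≤
      ENNReal.ofReal (Real.exp (-(7 * δ / 16) * N)) :=
    hlow.trans (hsup.trans (ENNReal.ofReal_le_ofReal hpow))
  have h2 : ENNReal.ofReal (Real.exp (N * δ / 8)) * ENNReal.ofReal (Real.exp (-(N * δ / 8))) = 1 := by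
    rw [← ENNReal.ofReal_mul (Real.exp_pos _).le, ← Real.exp_add]
    simp
  calc P F = ENNReal.ofReal (Real.exp (N * δ / 8)) *
        (ENNReal.ofReal (Real.exp (-(N * δ / 8))) * P F) := by
        rw [← mul_assoc, h2, one_mul]
    _ ≤ ENNReal.ofReal (Real.exp (N * δ / 8)) * ENNReal.ofReal (Real.exp (-(7 * δ / 16) * N)) :=
        mul_le_mul_right h1 _
    _ = _ := by
        rw [← ENNReal.ofReal_mul (Real.exp_pos _).le, ← Real.exp_add]
        congr 2
        ring

end Super

section Cells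

variable {n : ℕ}

/-- Lebesgue measure restricted to the unit cube. -/
noncomputable def cubeμ (n : ℕ) : Measure (Fin n → ℝ) :=
  (volume : Measure (Fin n → ℝ)).restrict (Set.Icc 0 1)

instance : IsProbabilityMeasure (cubeμ n) := by
  constructor
  rw [cubeμ, Measure.restrict_apply_univ, Real.volume_Icc_pi]
  simp

/-- The dyadic cell of shape `m` containing `y`. -/
def cell (m : Fin n → ℕ) (y : Fin n → ℝ) : Set (Fin n → ℝ) :=
  {x | ∀ i, ⌊(2 : ℝ) ^ (m i) * x i⌋ = ⌊(2 : ℝ) ^ (m i) * y i⌋}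

lemma cell_symm (m : Fin n → ℕ) (x y : Fin n → ℝ) : x ∈ cell m y ↔ y ∈ cell m x := by
  simp only [cell, Set.mem_ofPred_eq, eq_comm]

lemma measurableSet_cell_pair (m : Fin n → ℕ) :
    MeasurableSet {p : (Fin n → ℝ) × (Fin n → ℝ) | p.2 ∈ cell m p.1} := by
  have : {p : (Fin n → ℝ) × (Fin n → ℝ) | p.2 ∈ cell m p.1} =
      ⋂ i, {p : (Fin n → ℝ) × (Fin n → ℝ) |
        ⌊(2 : ℝ) ^ (m i) * p.2 i⌋ = ⌊(2 : ℝ) ^ (m i) * p.1 i⌋} := by
    ext p
    simp [cell]
  rw [this]
  refine MeasurableSet.iInter fun i => ?_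
  refine measurableSet_eq_fun ?_ ?_
  · exact Int.measurable_floor.comp (((measurable_pi_apply i).comp measurable_snd).const_mul _)
  · exact Int.measurable_floor.comp (((measurable_pi_apply i).comp measurable_fst).const_mul _)

lemma abs_sub_lt_of_mem_cell {m : Fin n → ℕ} {x y : Fin n → ℝ} (h : x ∈ cell m y) (i : Fin n) :
    |x i - y i| < (1 / 2) ^ (m i) := by
  have h1 := Int.abs_sub_lt_one_of_floor_eq_floor (h i)
  have h2 : (0 : ℝ) < 2 ^ (m i) := by positivity
  rw [← mul_sub, abs_mul, abs_of_pos h2] at h1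
  rw [one_div_pow, lt_div_iff₀' h2]
  exact h1

lemma cell_eq_pi (m : Fin n → ℕ) (y : Fin n → ℝ) :
    cell m y = Set.pi Set.univ (fun i => Set.Ico ((⌊(2 : ℝ) ^ (m i) * y i⌋ : ℝ) / 2 ^ (m i))
      (((⌊(2 : ℝ) ^ (m i) * y i⌋ : ℝ) + 1) / 2 ^ (m i))) := by
  ext x
  simp only [cell, Set.mem_ofPred_eq, Set.mem_pi, Set.mem_univ, true_imp_iff, Set.mem_Ico]
  refine forall_congr' fun i => ?_
  have h2 : (0 : ℝ) < 2 ^ (m i) := by positivity
  rw [Int.floor_eq_iff, div_le_iff₀ h2, lt_div_iff₀ h2, mul_comm (x i)]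

lemma ae_cell (m : Fin n → ℕ) :
    ∀ᵐ y ∂(cubeμ n), (cubeμ n).real (cell m y) = (1 / 2) ^ (∑ i, m i) := by
  have hae : (Set.pi Set.univ fun _ : Fin n => Set.Ico (0 : ℝ) 1) =ᵐ[volume] Set.Icc 0 1 := by
    exact Measure.univ_pi_Ico_ae_eq_Icc
  have hmu : cubeμ n = volume.restrict (Set.pi Set.univ fun _ : Fin n => Set.Ico (0 : ℝ) 1) := by
    rw [cubeμ]; exact (Measure.restrict_congr_set hae).symm
  have hmeas : MeasurableSet (Set.pi Set.univ fun _ : Fin n => Set.Ico (0 : ℝ) 1) :=
    MeasurableSet.univ_pi fun _ => measurableSet_Ico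
  rw [hmu]
  filter_upwards [ae_restrict_mem hmeas] with y hy
  have hsub : cell m y ⊆ Set.pi Set.univ fun _ : Fin n => Set.Ico (0 : ℝ) 1 := by
    rw [cell_eq_pi]
    refine Set.pi_mono fun i _ => ?_
    have h2 : (0 : ℝ) < 2 ^ (m i) := by positivity
    have hyi := hy i (Set.mem_univ i)
    have hf0 : (0 : ℤ) ≤ ⌊(2 : ℝ) ^ (m i) * y i⌋ := Int.floor_nonneg.mpr (mul_nonneg h2.le hyi.1)
    have hf1 : ⌊(2 : ℝ) ^ (m i) * y i⌋ < (2 : ℤ) ^ (m i) := by
      rw [Int.floor_lt]
      push_cast
      nlinarith [hyi.2]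
    intro z hz
    refine ⟨le_trans ?_ hz.1, lt_of_lt_of_le hz.2 ?_⟩
    · have : (0 : ℝ) ≤ (⌊(2 : ℝ) ^ (m i) * y i⌋ : ℝ) := by exact_mod_cast hf0
      positivity
    · rw [div_le_one h2]
      have : ((⌊(2 : ℝ) ^ (m i) * y i⌋ : ℝ) + 1) ≤ (2 : ℝ) ^ (m i) := by
        exact_mod_cast hf1
      exact this
  have hcm : MeasurableSet (cell m y) := by
    rw [cell_eq_pi]
    exact MeasurableSet.univ_pi fun _ => measurableSet_Ico
  rw [measureReal_def, Measure.restrict_apply hcm, Set.inter_eq_left.mpr hsub, cell_eq_pi,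
    Real.volume_pi_Ico]
  rw [ENNReal.toReal_prod, ← Finset.prod_pow_eq_pow_sum]
  refine Finset.prod_congr rfl fun i _ => ?_
  have h2 : (0 : ℝ) < 2 ^ (m i) := by positivity
  rw [← sub_div, add_sub_cancel_left, ENNReal.toReal_ofReal (by positivity), one_div, one_div, inv_pow]

end Cells

section Hist

variable {n : ℕ}

/-- The set hit by the point `y` with index `j`, when the dyadic blocks of indices use the
shapes prescribed by `h`. -/
def Hh (h : ℕ → Option (Fin n → ℕ)) (j : ℕ) (y : Fin n → ℝ) : Set (Fin n → ℝ) :=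
  {x | ∃ m, h (Nat.log 2 j) = some m ∧ x ∈ cell m y}

lemma Hh_some {h : ℕ → Option (Fin n → ℕ)} {j : ℕ} {m : Fin n → ℕ}
    (hm : h (Nat.log 2 j) = some m) (y : Fin n → ℝ) : Hh h j y = cell m y := by
  ext x
  simp only [Hh, Set.mem_ofPred_eq, hm, Option.some.injEq]
  exact ⟨fun ⟨m', h1, h2⟩ => h1 ▸ h2, fun h1 => ⟨m, rfl, h1⟩⟩

lemma Hh_none {h : ℕ → Option (Fin n → ℕ)} {j : ℕ}
    (hm : h (Nat.log 2 j) = none) (y : Fin n → ℝ) : Hh h j y = ∅ := by
  ext x
  simp [Hh, hm]

lemma measurableSet_Hh_pair (h : ℕ → Option (Fin n → ℕ)) (j : ℕ) :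
    MeasurableSet {p : (Fin n → ℝ) × (Fin n → ℝ) | p.2 ∈ Hh h j p.1} := by
  cases hm : h (Nat.log 2 j) with
  | none =>
    simp only [Hh_none hm, Set.mem_empty_iff_false]
    exact MeasurableSet.empty
  | some m =>
    simp only [Hh_some hm]
    exact measurableSet_cell_pair m

lemma Hh_symm (h : ℕ → Option (Fin n → ℕ)) (j : ℕ) (x y : Fin n → ℝ) :
    x ∈ Hh h j y ↔ y ∈ Hh h j x := by
  cases hm : h (Nat.log 2 j) with
  | none => simp [Hh_none hm]
  | some m => rw [Hh_some hm, Hh_some hm, cell_symm]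

/-- Finite set of options for the shape used in block `k`. -/
def Sh (n k : ℕ) : Finset (Option (Fin n → ℕ)) :=
  Finset.insertNone (Fintype.piFinset fun _ : Fin n => Finset.range (2 * k + 1))

lemma card_Sh (n k : ℕ) : (Sh n k).card = (2 * k + 1) ^ n + 1 := by
  rw [Sh, Finset.card_insertNone, Fintype.card_piFinset]
  simp

/-- Histories up to block `k`. -/
def histories (n k : ℕ) : Finset (Fin (k + 1) → Option (Fin n → ℕ)) :=
  Fintype.piFinset (fun i => Sh n i)

lemma card_histories (n k : ℕ) : (histories n k).card ≤ ((2 * k + 1) ^ n + 1) ^ (k + 1) := by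
  rw [histories, Fintype.card_piFinset]
  calc _ ≤ ∏ _i : Fin (k + 1), ((2 * k + 1) ^ n + 1) := by
        refine Finset.prod_le_prod' fun i _ => ?_
        rw [card_Sh]
        have : (i : ℕ) ≤ k := Nat.lt_succ_iff.mp i.2
        gcongr
    _ = _ := by simp

/-- Extend a finite history by `none`. -/
def ext (k : ℕ) (g : Fin (k + 1) → Option (Fin n → ℕ)) : ℕ → Option (Fin n → ℕ) :=
  fun i => if h : i < k + 1 then g ⟨i, h⟩ else none

/-- The bad event: the uncovered set is still large and block `k` covers too little of it. -/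
def bad (δ : ℝ) (h : ℕ → Option (Fin n → ℕ)) (k : ℕ) : Set (ℕ → Fin n → ℝ) :=
  {ω | ∃ m, h k = some m ∧ δ ≤ (cubeμ n).real (unc (Hh h) (2 ^ k) ω) ∧
    (cubeμ n).real (unc (Hh h) (2 ^ k) ω) - (cubeμ n).real (unc (Hh h) (2 ^ (k + 1)) ω) ≤
      min ((2 : ℝ) ^ k * (1 / 2) ^ (∑ i, m i)) 1 * δ / 8}

lemma log_eq_of_mem {k j : ℕ} (h1 : 2 ^ k ≤ j) (h2 : j < 2 ^ (k + 1)) : Nat.log 2 j = k := by
  have hj : j ≠ 0 := by
    have : 0 < 2 ^ k := by positivity
    omega
  exact (Nat.log_eq_iff (Or.inr ⟨by norm_num, hj⟩)).mpr ⟨h1, h2⟩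

lemma measure_bad (δ : ℝ) (hδ0 : 0 < δ) (hδ1 : δ ≤ 1) (h : ℕ → Option (Fin n → ℕ)) (k : ℕ) :
    (Measure.infinitePi (fun _ : ℕ => cubeμ n)) (bad δ h k) ≤
      ENNReal.ofReal (Real.exp (-(5 / 16) * δ * 2 ^ k)) := by
  cases hm : h k with
  | none =>
    have : bad δ h k = ∅ := by
      ext ω
      simp [bad, hm]
    rw [this, measure_empty]
    exact zero_le
  | some m =>
    have hb := block (cubeμ n) (H := Hh h) (measurableSet_Hh_pair h) (2 ^ k) (2 ^ k)
      ((1 / 2) ^ (∑ i, m i)) (by positivity)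
      (fun j _ _ x y => Hh_symm h j x y)
      (fun j h1 h2 => by
        have hlog : Nat.log 2 j = k := log_eq_of_mem h1 (by rw [pow_succ]; omega)
        simp only [Hh_some (hlog.symm ▸ hm)]
        exact ae_cell m) δ hδ0 hδ1
    refine le_trans (measure_mono ?_) (hb.trans (le_of_eq ?_))
    · rintro ω ⟨m', h1, h2, h3⟩
      rw [hm] at h1
      obtain rfl := Option.some.inj h1
      refine ⟨h2, ?_⟩
      have e : 2 ^ k + 2 ^ k = 2 ^ (k + 1) := by rw [pow_succ]; ring
      rw [e]
      push_cast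
      exact h3
    · push_cast
      rfl

/-- `bad` only depends on the history up to block `k`. -/
lemma bad_congr (δ : ℝ) {h h' : ℕ → Option (Fin n → ℕ)} {k : ℕ} (hh : ∀ i ≤ k, h i = h' i) :
    bad δ h k = bad δ h' k := by
  have hunc : ∀ M ≤ 2 ^ (k + 1), ∀ ω, unc (Hh h) M ω = unc (Hh h') M ω := by
    intro M hM ω
    ext x
    simp only [unc, Set.mem_ofPred_eq]
    refine forall₂_congr fun j hj => ?_
    have hlog : Nat.log 2 j ≤ k := by
      have : Nat.log 2 j < k + 1 := Nat.log_lt_of_lt_pow' (by omega) (lt_of_lt_of_le hj hM)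
      omega
    simp only [Hh, hh _ hlog]
  ext ω
  simp only [bad, Set.mem_ofPred_eq, hh k le_rfl, hunc _ le_rfl,
    hunc (2 ^ k) (Nat.pow_le_pow_right (by norm_num) (Nat.le_succ k))]

lemma summable_bound (n : ℕ) (δ : ℝ) (hδ : 0 < δ) :
    Summable (fun k : ℕ => (((2 * k + 1) ^ n + 1) ^ (k + 1) : ℝ) *
      Real.exp (-(5 / 16) * δ * 2 ^ k)) := by
  have hexp : Summable (fun k : ℕ => Real.exp (-(k : ℝ))) := by
    have := Real.summable_exp_neg_nat
    simpa using this
  refine Summable.of_norm_bounded_eventually_nat hexp ?_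
  have ht : Tendsto (fun k : ℕ => (k : ℝ) ^ 2 / (2 : ℝ) ^ k) atTop (nhds 0) :=
    tendsto_pow_const_div_const_pow_of_one_lt 2 (by norm_num)
  have hev := ht.eventually (gt_mem_nhds (show (0 : ℝ) < (5 / 16) * δ / (8 * n + 5) by positivity))
  filter_upwards [hev, eventually_ge_atTop 1] with k hk hk1
  have hk1' : (1 : ℝ) ≤ k := by exact_mod_cast hk1
  rw [Real.norm_eq_abs, abs_of_nonneg (by positivity)]
  have h2k : (0 : ℝ) < 2 ^ k := by positivity
  rw [div_lt_div_iff₀ h2k (by positivity)] at hk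
  have h1 : (((2 * k + 1) ^ n + 1) : ℝ) ≤ Real.exp (2 * k * n + 1) := by
    have h3 : (2 * (k : ℝ) + 1) ≤ Real.exp (2 * k) := by
      have := Real.add_one_le_exp (2 * (k : ℝ))
      linarith
    have h4 : (2 * (k : ℝ) + 1) ^ n ≤ Real.exp (2 * k * n) := by
      calc (2 * (k : ℝ) + 1) ^ n ≤ (Real.exp (2 * k)) ^ n :=
            pow_le_pow_left₀ (by positivity) h3 n
        _ = _ := by rw [← Real.exp_nat_mul]; ring_nf
    have h5 : (1 : ℝ) ≤ Real.exp (2 * k * n) := Real.one_le_exp (by positivity)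
    have h6 : (2 : ℝ) ≤ Real.exp 1 := by
      have := Real.add_one_le_exp (1 : ℝ)
      linarith
    rw [Real.exp_add]
    nlinarith
  calc (((2 * k + 1) ^ n + 1) ^ (k + 1) : ℝ) * Real.exp (-(5 / 16) * δ * 2 ^ k)
      ≤ (Real.exp (2 * k * n + 1)) ^ (k + 1) * Real.exp (-(5 / 16) * δ * 2 ^ k) := by
        refine mul_le_mul_of_nonneg_right ?_ (Real.exp_pos _).le
        exact pow_le_pow_left₀ (by positivity) h1 _
    _ = Real.exp (((k + 1 : ℕ) : ℝ) * (2 * k * n + 1) + (-(5 / 16) * δ * 2 ^ k)) := by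
        rw [← Real.exp_nat_mul, ← Real.exp_add]
    _ ≤ Real.exp (-(k : ℝ)) := by
        refine Real.exp_le_exp.mpr ?_
        push_cast
        have h7 : (k : ℝ) ≤ (k : ℝ) ^ 2 := by nlinarith
        have h8 : (1 : ℝ) ≤ (k : ℝ) ^ 2 := by nlinarith
        have hn : (0 : ℝ) ≤ n := by positivity
        nlinarith [mul_nonneg hn (sub_nonneg.mpr h7), mul_nonneg hn (sub_nonneg.mpr h8)]

/-- Almost surely, for every `q` and every large `k`, no bad event happens, for any history. -/
lemma ae_good (n : ℕ) :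
    ∀ᵐ ω ∂(Measure.infinitePi (fun _ : ℕ => cubeμ n)), ∀ q : ℕ, ∀ᶠ k in atTop,
      ∀ h : ℕ → Option (Fin n → ℕ), (∀ i ≤ k, h i ∈ Sh n i) → ω ∉ bad (1 / ((q : ℝ) + 1)) h k := by
  rw [ae_all_iff]
  intro q
  set δ : ℝ := 1 / ((q : ℝ) + 1) with hδ
  have hδ0 : 0 < δ := by positivity
  have hδ1 : δ ≤ 1 := by
    rw [hδ, div_le_one (by positivity)]
    have : (0 : ℝ) ≤ q := by positivity
    linarith
  set P := Measure.infinitePi (fun _ : ℕ => cubeμ n) with hP
  have hsum : (∑' k, P (⋃ g ∈ histories n k, bad δ (ext k g) k)) ≠ ∞ := by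
    refine ne_top_of_le_ne_top (summable_bound n δ hδ0).tsum_ofReal_ne_top ?_
    refine ENNReal.tsum_le_tsum fun k => ?_
    calc P (⋃ g ∈ histories n k, bad δ (ext k g) k)
        ≤ ∑ g ∈ histories n k, P (bad δ (ext k g) k) := measure_biUnion_finset_le _ _
      _ ≤ ∑ _g ∈ histories n k, ENNReal.ofReal (Real.exp (-(5 / 16) * δ * 2 ^ k)) :=
          Finset.sum_le_sum fun g _ => measure_bad δ hδ0 hδ1 _ k
      _ = (histories n k).card * ENNReal.ofReal (Real.exp (-(5 / 16) * δ * 2 ^ k)) := by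
          rw [Finset.sum_const, nsmul_eq_mul]
      _ ≤ ENNReal.ofReal ((((2 * k + 1) ^ n + 1) ^ (k + 1) : ℝ)) *
            ENNReal.ofReal (Real.exp (-(5 / 16) * δ * 2 ^ k)) := by
          refine mul_le_mul_left ?_ _
          have h1 : (((histories n k).card : ℕ) : ℝ≥0∞) ≤
              ((((2 * k + 1) ^ n + 1) ^ (k + 1) : ℕ) : ℝ≥0∞) := by
            exact_mod_cast card_histories n k
          refine h1.trans (le_of_eq ?_)
          rw [← ENNReal.ofReal_natCast]
          push_cast
          rfl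
      _ = _ := by rw [← ENNReal.ofReal_mul (by positivity)]
  filter_upwards [ae_eventually_notMem hsum] with ω hω
  filter_upwards [hω] with k hk h hh hbad
  refine hk ?_
  rw [Set.mem_iUnion₂]
  refine ⟨fun i => h i, ?_, ?_⟩
  · rw [histories, Fintype.mem_piFinset]
    exact fun i => hh i (Nat.lt_succ_iff.mp i.2)
  · rw [bad_congr δ (h' := h)]
    · exact hbad
    · intro i hi
      simp [ext, Nat.lt_succ_of_le hi]

end Hist

section Deterministic

variable {n : ℕ}

lemma exists_lev {t : ℝ} (ht : 0 < t) : ∃ m : ℕ, (1 / 2 : ℝ) ^ m ≤ t := by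
  obtain ⟨m, hm⟩ := exists_pow_lt_of_lt_one ht (show (1 / 2 : ℝ) < 1 by norm_num)
  exact ⟨m, hm.le⟩

open Classical in
/-- The least `m` with `2 ^ (-m) ≤ t`. -/
noncomputable def lev {t : ℝ} (ht : 0 < t) : ℕ := Nat.find (exists_lev ht)

lemma lev_spec {t : ℝ} (ht : 0 < t) : (1 / 2 : ℝ) ^ (lev ht) ≤ t := by
  classical
  exact Nat.find_spec (exists_lev ht)

lemma lev_lower {t C : ℝ} (ht : 0 < t) (hC : 1 ≤ C) (htC : t ≤ C) :
    t ≤ 2 * C * (1 / 2 : ℝ) ^ (lev ht) := by
  classical
  rcases Nat.eq_zero_or_pos (lev ht) with h | h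
  · rw [h]; linarith
  · obtain ⟨l, hl⟩ : ∃ l, lev ht = l + 1 := ⟨lev ht - 1, by omega⟩
    have h1 : ¬ (1 / 2 : ℝ) ^ l ≤ t := by
      have : l < Nat.find (exists_lev ht) := by
        have : lev ht = Nat.find (exists_lev ht) := rfl
        omega
      exact Nat.find_min (exists_lev ht) this
    rw [not_le] at h1
    rw [hl, pow_succ]
    have h2 : (0 : ℝ) < (1 / 2 : ℝ) ^ l := by positivity
    nlinarith

lemma deterministic (ω : ℕ → Fin n → ℝ)
    (hω : ∀ q : ℕ, ∀ᶠ k in atTop, ∀ h : ℕ → Option (Fin n → ℕ), (∀ i ≤ k, h i ∈ Sh n i) →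
      ω ∉ bad (1 / ((q : ℝ) + 1)) h k)
    (Ψ : Fin n → ℕ → ℝ) (hpos : ∀ i j, 0 < Ψ i j) (hanti : ∀ i, Antitone (Ψ i))
    (hdiv : ¬ Summable (fun j => ∏ i, Ψ i j)) (J : ℕ) :
    cubeμ n {x | ∃ j ≥ J, ∀ i, |x i - ω j i| < Ψ i j}ᶜ = 0 := by
  classical
  -- shapes
  set m : ℕ → Fin n → ℕ := fun k i => lev (hpos i (2 ^ (k + 1))) with hm
  set b : ℕ → ℝ := fun k => (2 : ℝ) ^ k * (1 / 2) ^ (∑ i, m k i) with hb
  set f : ℕ → ℝ := fun j => ∏ i, Ψ i j with hf
  have hf0 : ∀ j, 0 ≤ f j := fun j => Finset.prod_nonneg fun i _ => (hpos i j).le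
  have hfanti : ∀ ⦃p q : ℕ⦄, 0 < p → p ≤ q → f q ≤ f p := fun p q _ hpq =>
    Finset.prod_le_prod (fun i _ => (hpos i q).le) fun i _ => hanti i hpq
  have hb0 : ∀ k, 0 < b k := fun k => by simp only [hb]; positivity
  -- b is not summable
  have hbns : ¬ Summable b := by
    intro hbs
    apply hdiv
    rw [← summable_condensed_iff_of_nonneg hf0 hfanti, ← summable_nat_add_iff 1]
    refine Summable.of_nonneg_of_le (fun k => by have := hf0 (2 ^ (k + 1)); positivity)
      (fun k => ?_) (hbs.mul_left (2 * ∏ i, (2 * max 1 (Ψ i 0))))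
    have h1 : f (2 ^ (k + 1)) ≤ (∏ i, (2 * max 1 (Ψ i 0))) * (1 / 2) ^ (∑ i, m k i) := by
      rw [← Finset.prod_pow_eq_pow_sum, ← Finset.prod_mul_distrib]
      refine Finset.prod_le_prod (fun i _ => (hpos i _).le) fun i _ => ?_
      exact lev_lower (hpos i (2 ^ (k + 1))) (le_max_left _ _)
        ((hanti i (Nat.zero_le _)).trans (le_max_right _ _))
    simp only [hb]
    calc (2 : ℝ) ^ (k + 1) * f (2 ^ (k + 1))
        ≤ (2 : ℝ) ^ (k + 1) * ((∏ i, (2 * max 1 (Ψ i 0))) * (1 / 2) ^ (∑ i, m k i)) :=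
          mul_le_mul_of_nonneg_left h1 (by positivity)
      _ = _ := by rw [pow_succ]; ring
  set c : ℕ → ℝ := fun k => if (∀ i, m k i ≤ 2 * k) then min (b k) 1 else 0 with hc
  have hc0 : ∀ k, 0 ≤ c k := fun k => by
    simp only [hc]
    split_ifs
    · exact le_min (hb0 k).le zero_le_one
    · exact le_rfl
  have hcns : ¬ Summable c := by
    intro hcs
    apply hbns
    have hev := hcs.tendsto_atTop_zero.eventually (gt_mem_nhds (show (0 : ℝ) < 1 by norm_num))
    have hgeo : Summable (fun k : ℕ => (1 / 2 : ℝ) ^ k) :=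
      summable_geometric_of_lt_one (by norm_num) (by norm_num)
    refine Summable.of_norm_bounded_eventually_nat (hcs.add hgeo) ?_
    filter_upwards [hev] with k hk
    rw [Real.norm_eq_abs, abs_of_pos (hb0 k)]
    by_cases hg : ∀ i, m k i ≤ 2 * k
    · have hck : c k = min (b k) 1 := by simp only [hc]; rw [if_pos hg]
      rw [hck] at hk ⊢
      have : min (b k) 1 = b k := by
        rcases min_choice (b k) 1 with h | h
        · exact h
        · rw [h] at hk; exact absurd hk (lt_irrefl _)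
      rw [this]
      have : (0 : ℝ) ≤ (1 / 2 : ℝ) ^ k := by positivity
      linarith
    · push Not at hg
      obtain ⟨i, hi⟩ := hg
      have h1 : 2 * k ≤ ∑ i, m k i :=
        hi.le.trans (Finset.single_le_sum (fun i _ => Nat.zero_le (m k i)) (Finset.mem_univ i))
      have h2 : b k ≤ (1 / 2 : ℝ) ^ k := by
        simp only [hb]
        calc (2 : ℝ) ^ k * (1 / 2) ^ (∑ i, m k i) ≤ (2 : ℝ) ^ k * (1 / 2) ^ (2 * k) := by
              refine mul_le_mul_of_nonneg_left ?_ (by positivity)
              exact pow_le_pow_of_le_one (by norm_num) (by norm_num) h1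
          _ = (1 / 2 : ℝ) ^ k := by
              rw [two_mul k, pow_add, ← mul_assoc, ← mul_pow]
              norm_num
      have := hc0 k
      linarith
  -- main claim
  have main : ∀ q : ℕ, (cubeμ n).real {x | ∃ j ≥ J, ∀ i, |x i - ω j i| < Ψ i j}ᶜ ≤
      1 / ((q : ℝ) + 1) := by
    intro q
    obtain ⟨K, hK⟩ := eventually_atTop.mp (hω q)
    set δ : ℝ := 1 / ((q : ℝ) + 1) with hδ
    have hδ0 : 0 < δ := by positivity
    set k₀ : ℕ := max (max K J) 1 with hk₀
    set h : ℕ → Option (Fin n → ℕ) :=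
      fun k => if k₀ ≤ k ∧ ∀ i, m k i ≤ 2 * k then some (m k) else none with hh
    have hSh : ∀ i, h i ∈ Sh n i := by
      intro i
      simp only [hh, Sh]
      split_ifs with hi
      · rw [Finset.some_mem_insertNone, Fintype.mem_piFinset]
        intro j
        rw [Finset.mem_range]
        have := hi.2 j
        omega
      · exact Finset.none_mem_insertNone
    set u : ℕ → ℝ := fun k => (cubeμ n).real (unc (Hh h) (2 ^ k) ω) with hu
    have hu_anti : ∀ k, u (k + 1) ≤ u k := fun k =>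
      measureReal_mono (unc_anti _ (Nat.pow_le_pow_right (by norm_num) (Nat.le_succ k)) ω)
    have hstep : ∀ k, k₀ ≤ k → δ ≤ u k → c k * δ / 8 ≤ u k - u (k + 1) := by
      intro k hk huk
      by_cases hg : ∀ i, m k i ≤ 2 * k
      · have hnb := hK k (by omega) h (fun i _ => hSh i)
        have hhk : h k = some (m k) := by simp only [hh]; rw [if_pos ⟨hk, hg⟩]
        have hck : c k = min (b k) 1 := by simp only [hc]; rw [if_pos hg]
        by_contra hcon
        rw [not_le] at hcon
        apply hnb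
        refine ⟨m k, hhk, huk, ?_⟩
        rw [hck] at hcon
        exact hcon.le
      · have hck : c k = 0 := by simp only [hc]; rw [if_neg hg]
        rw [hck]
        have := hu_anti k
        linarith
    have hex : ∃ k, k₀ ≤ k ∧ u k < δ := by
      by_contra hcon
      push Not at hcon
      apply hcns
      rw [← summable_nat_add_iff k₀]
      have hsum : ∀ N, ∑ i ∈ Finset.range N, c (i + k₀) * δ / 8 ≤ u k₀ - u (N + k₀) := by
        intro N
        induction N with
        | zero => simp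
        | succ N ih =>
          rw [Finset.sum_range_succ]
          have h1 := hstep (N + k₀) (by omega) (hcon _ (by omega))
          have h2 : N + 1 + k₀ = N + k₀ + 1 := by ring
          rw [h2]
          linarith
      refine summable_of_sum_range_le (c := 8 / δ) (fun i => hc0 _) fun N => ?_
      have h1 := hsum N
      have h2 : u k₀ ≤ 1 := measureReal_le_one
      have h3 : 0 ≤ u (N + k₀) := measureReal_nonneg
      rw [← Finset.sum_div, ← Finset.sum_mul] at h1
      rw [le_div_iff₀ hδ0]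
      linarith
    obtain ⟨k, hk, huk⟩ := hex
    refine le_trans (measureReal_mono ?_) huk.le
    intro x hx j hj hxj
    apply hx
    obtain ⟨m', hm', hxc⟩ := hxj
    simp only [hh] at hm'
    split_ifs at hm' with hcond
    · obtain rfl := Option.some.inj hm'
      have hj0 : j ≠ 0 := by
        rintro rfl
        simp at hcond
        omega
      have hjk : 2 ^ k₀ ≤ j := (Nat.pow_le_pow_right (by norm_num) hcond.1).trans
        (Nat.pow_log_le_self 2 hj0)
      refine ⟨j, ?_, fun i => ?_⟩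
      · have : k₀ < 2 ^ k₀ := Nat.lt_two_pow_self
        omega
      · refine lt_of_lt_of_le (abs_sub_lt_of_mem_cell hxc i) ?_
        refine (lev_spec (hpos i (2 ^ (Nat.log 2 j + 1)))).trans ?_
        exact hanti i (Nat.lt_pow_succ_log_self (by norm_num) j).le
  -- conclusion
  have h0 : (cubeμ n).real {x | ∃ j ≥ J, ∀ i, |x i - ω j i| < Ψ i j}ᶜ ≤ 0 := by
    refine ge_of_tendsto' (tendsto_one_div_add_atTop_nhds_zero_nat (𝕜 := ℝ)) main
  have h1 : (cubeμ n).real {x | ∃ j ≥ J, ∀ i, |x i - ω j i| < Ψ i j}ᶜ = 0 :=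
    le_antisymm h0 measureReal_nonneg
  rwa [measureReal_eq_zero_iff] at h1

end Deterministic

/-- Weighted Khintchine law for random sequences in the unit cube: for almost every sequence
`ω` of points of `[0,1]^n` (product of Lebesgue measures), simultaneously for all `n`-tuples `Ψ` of
non-increasing positive functions with divergent sum of products, almost every point `x` of the
cube satisfies `|x_i - ω_{j,i}| < Ψ_i(j)` for all `i`, for infinitely many `j`. -/
theorem result (n : ℕ) (_hn : 1 ≤ n) :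
    ∀ᵐ ω ∂(Measure.infinitePi
      (fun _ : ℕ => (volume : Measure (Fin n → ℝ)).restrict (Set.Icc 0 1))),
      ∀ Ψ : Fin n → ℕ → ℝ, (∀ i j, 0 < Ψ i j) → (∀ i, Antitone (Ψ i)) →
        ¬ Summable (fun j => ∏ i, Ψ i j) →
        volume {x : Fin n → ℝ | x ∈ Set.Icc 0 1 ∧
          {j : ℕ | ∀ i, |x i - ω j i| < Ψ i j}.Infinite} = 1 := by
  have hae := ae_good n
  change ∀ᵐ ω ∂(Measure.infinitePi (fun _ : ℕ => cubeμ n)), _
  filter_upwards [hae] with ω hω Ψ hpos hanti hdiv
  have hdet := deterministic ω hω Ψ hpos hanti hdiv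
  have hall : ∀ᵐ x ∂(cubeμ n), ∀ J, ∃ j ≥ J, ∀ i, |x i - ω j i| < Ψ i j := by
    rw [ae_all_iff]
    intro J
    exact hdet J
  have hset : {x : Fin n → ℝ | x ∈ Set.Icc 0 1 ∧
      {j : ℕ | ∀ i, |x i - ω j i| < Ψ i j}.Infinite} =
      {x : Fin n → ℝ | ∀ J, ∃ j ≥ J, ∀ i, |x i - ω j i| < Ψ i j} ∩ Set.Icc 0 1 := by
    ext x
    simp only [Set.mem_ofPred_eq, Set.mem_inter_iff, and_comm (a := x ∈ Set.Icc 0 1)]
    refine and_congr_left fun _ => ?_
    rw [← Nat.frequently_atTop_iff_infinite, frequently_atTop]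
  rw [hset, ← Measure.restrict_apply' measurableSet_Icc]
  have h1 : cubeμ n {x : Fin n → ℝ | ∀ J, ∃ j ≥ J, ∀ i, |x i - ω j i| < Ψ i j} = 1 := by
    rw [← prob_compl_eq_zero_iff₀ ?_]
    · exact hall
    · exact NullMeasurableSet.of_compl (NullMeasurableSet.of_null hall)
  exact h1

end Pool.Agent.Results.MP_bc03d6_nt.Khintchine
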